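import Pool.Agent.Helper48.KM.Stmts

set_option autoImplicit false

/-! Module NRM: norm from the double plane. -/

namespace Pool.Agent.Helper48.KM

open MvPolynomial

noncomputable section

/-- evaluation of a polynomial in `x` over polynomials in `z` -/
def nrm_E (z x : ℂ) : Polynomial (Polynomial ℂ) →+* ℂ :=
  Polynomial.eval₂RingHom (Polynomial.evalRingHom z) x

lemma nrm_E_apply (z x : ℂ) (f : Polynomial (Polynomial ℂ)) :
    nrm_E z x f = (f.map (Polynomial.evalRingHom z)).eval x := by
  unfold nrm_E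
  rw [Polynomial.coe_eval₂RingHom, Polynomial.eval_map]

lemma nrm_E_C (z x : ℂ) (f : Polynomial ℂ) : nrm_E z x (Polynomial.C f) = f.eval z := by
  unfold nrm_E
  rw [Polynomial.coe_eval₂RingHom, Polynomial.eval₂_C, Polynomial.coe_evalRingHom]

lemma nrm_E_X (z x : ℂ) : nrm_E z x Polynomial.X = x := by
  unfold nrm_E
  rw [Polynomial.coe_eval₂RingHom, Polynomial.eval₂_X]

lemma nrm_red (Q : Polynomial (Polynomial ℂ)) (l : Polynomial ℂ) (g : MvPolynomial (Fin 3) ℂ) :
    ∃ (M : ℕ) (g0 g1 : Polynomial (Polynomial ℂ)), ∀ P : Fin 3 → ℂ,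
      l.eval (P 0) * P 2 ^ 2 = nrm_E (P 0) (P 1) Q →
      l.eval (P 0) ^ M * eval P g = nrm_E (P 0) (P 1) g0 + P 2 * nrm_E (P 0) (P 1) g1 := by
  induction g using MvPolynomial.induction_on with
  | C a =>
    refine ⟨0, Polynomial.C (Polynomial.C a), 0, ?_⟩
    intro P _
    rw [nrm_E_C, Polynomial.eval_C, map_zero, eval_C]
    ring
  | add p q hp hq =>
    obtain ⟨M1, a0, a1, h1⟩ := hp
    obtain ⟨M2, b0, b1, h2⟩ := hq
    refine ⟨M1 + M2, Polynomial.C l ^ M2 * a0 + Polynomial.C l ^ M1 * b0,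
      Polynomial.C l ^ M2 * a1 + Polynomial.C l ^ M1 * b1, ?_⟩
    intro P hP
    have k1 := h1 P hP
    have k2 := h2 P hP
    simp only [map_add, map_mul, map_pow, nrm_E_C]
    rw [pow_add]
    linear_combination (l.eval (P 0)) ^ M2 * k1 + (l.eval (P 0)) ^ M1 * k2
  | mul_X p i hp =>
    obtain ⟨M, a0, a1, h1⟩ := hp
    fin_cases i
    · refine ⟨M, Polynomial.C Polynomial.X * a0, Polynomial.C Polynomial.X * a1, ?_⟩
      intro P hP
      have k1 := h1 P hP
      simp only [map_mul, nrm_E_C, Polynomial.eval_X, eval_X]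
      change _ * (_ * P 0) = _
      linear_combination P 0 * k1
    · refine ⟨M, Polynomial.X * a0, Polynomial.X * a1, ?_⟩
      intro P hP
      have k1 := h1 P hP
      simp only [map_mul, nrm_E_X, eval_X]
      change _ * (_ * P 1) = _
      linear_combination P 1 * k1
    · refine ⟨M + 1, Q * a1, Polynomial.C l * a0, ?_⟩
      intro P hP
      have k1 := h1 P hP
      simp only [map_mul, nrm_E_C, eval_X]
      change _ * (_ * P 2) = _
      rw [pow_succ]
      linear_combination l.eval (P 0) * P 2 * k1 + nrm_E (P 0) (P 1) a1 * hP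

lemma nrm_ne {f : Polynomial (Polynomial ℂ)} (hf : f ≠ 0) : ∃ z x : ℂ, nrm_E z x f ≠ 0 := by
  by_contra hcon
  push Not at hcon
  apply hf
  ext1 n
  apply Polynomial.funext
  intro z
  have h1 : f.map (Polynomial.evalRingHom z) = 0 := by
    apply Polynomial.funext
    intro x
    rw [← nrm_E_apply, hcon z x, Polynomial.eval_zero]
  have h2 := congrArg (fun p => Polynomial.coeff p n) h1
  simpa using h2

/-- transport to two variables -/
def nrm_T : Polynomial (Polynomial ℂ) →+* MvPolynomial (Fin 2) ℂ :=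
  Polynomial.eval₂RingHom (Polynomial.eval₂RingHom (MvPolynomial.C (R := ℂ) (σ := Fin 2)) (X 0))
    (X 1)

lemma nrm_T_eval (z x : ℂ) (f : Polynomial (Polynomial ℂ)) :
    eval ![z, x] (nrm_T f) = nrm_E z x f := by
  have h : ((eval ![z, x]).comp nrm_T) = nrm_E z x := by
    apply Polynomial.ringHom_ext
    · intro a
      unfold nrm_T
      rw [RingHom.comp_apply, nrm_E_C, Polynomial.coe_eval₂RingHom, Polynomial.eval₂_C]
      rw [Polynomial.coe_eval₂RingHom]
      rw [Polynomial.hom_eval₂]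
      have h3 : (eval ![z, x]).comp (MvPolynomial.C (R := ℂ) (σ := Fin 2)) = RingHom.id ℂ := by
        ext c
        simp
      rw [h3, eval_X]
      simp [Polynomial.eval₂_id]
    · unfold nrm_T
      rw [RingHom.comp_apply, nrm_E_X, Polynomial.coe_eval₂RingHom, Polynomial.eval₂_X, eval_X]
      simp
  rw [← h]
  rfl

theorem st_NRM : ST_NRM := by
  intro Q l hl hQ g
  obtain ⟨M, g0, g1, h⟩ := nrm_red Q l g
  by_cases hN : Polynomial.C l * g0 ^ 2 - Q * g1 ^ 2 = 0
  · right
    have hQ0 : Q ≠ 0 := by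
      rintro rfl
      simp at hQ
    have hCl : Polynomial.C l ≠ 0 := by
      rw [Ne, Polynomial.C_eq_zero]
      exact hl
    have hg0 : g0 = 0 := by
      by_contra hg0
      have e1 : Polynomial.C l * g0 ^ 2 = Q * g1 ^ 2 := sub_eq_zero.1 hN
      have e2 : Q * g1 ^ 2 ≠ 0 := by
        rw [← e1]
        exact mul_ne_zero hCl (pow_ne_zero 2 hg0)
      have e3 : g1 ≠ 0 := by
        rintro rfl
        simp at e2
      have e4 := congrArg Polynomial.natDegree e1
      rw [Polynomial.natDegree_mul hCl (pow_ne_zero 2 hg0), Polynomial.natDegree_C,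
        Polynomial.natDegree_mul hQ0 (pow_ne_zero 2 e3), Polynomial.natDegree_pow,
        Polynomial.natDegree_pow] at e4
      obtain ⟨k, hk⟩ := hQ
      omega
    have hg1 : g1 = 0 := by
      rw [hg0] at hN
      have e1 : Q * g1 ^ 2 = 0 := by
        simpa using hN
      rcases mul_eq_zero.1 e1 with e2 | e2
      · exact absurd e2 hQ0
      · exact pow_eq_zero_iff (two_ne_zero) |>.1 e2
    intro P hP0 hP
    have k := h P (by rw [nrm_E_apply]; exact hP)
    rw [hg0, hg1, map_zero, mul_zero, add_zero] at k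
    rcases mul_eq_zero.1 k with k1 | k1
    · exact absurd k1 (pow_ne_zero M hP0)
    · exact k1
  · left
    refine ⟨nrm_T (Polynomial.C l * g0 ^ 2 - Q * g1 ^ 2), ?_, ?_⟩
    · obtain ⟨z, x, hzx⟩ := nrm_ne hN
      intro h0
      apply hzx
      rw [← nrm_T_eval, h0, map_zero]
    · intro P hP hg
      have hP' : l.eval (P 0) * P 2 ^ 2 = nrm_E (P 0) (P 1) Q := by
        rw [nrm_E_apply]
        exact hP
      have k := h P hP'
      rw [hg, mul_zero] at k
      rw [nrm_T_eval, map_sub, map_mul, map_mul, map_pow, map_pow, nrm_E_C]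
      have k2 : nrm_E (P 0) (P 1) g0 = - (P 2 * nrm_E (P 0) (P 1) g1) := by
        linear_combination -k
      rw [k2]
      linear_combination (nrm_E (P 0) (P 1) g1) ^ 2 * hP'

end

end Pool.Agent.Helper48.KM
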