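import Pool.Agent.Helper75.KM.Stmts

/-!
# Module CST: the costs of level 1, from bounds for the distances of the heights
-/

set_option autoImplicit false

namespace Pool.Agent.Helper75.KM

open Pool.Agent.Helper8.Kak Pool.Agent.Helper89.KakGeo

section

variable {m M : ℕ} {G : Geo m M} (S : Sys G) {D : ℝ}

theorem cst_upB (hD : 0 ≤ D) (hL : LDB S D) :
    Ex S.pY (fun y => up M (vB S y)) ≤ D + 2.1 := by
  have h2 := log2_le
  have h4 := log4_le
  have e : Ex S.pY (fun y => up M (vB S y)) ≤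
      Ex S.pY (fun y => ld (S.T (cS y)) (S.T (c0 y)) + (Real.log 2 + Real.log 4)) := by
    refine Helper8.Kak.Ex_mono S.hpY fun y => ?_
    have h5 := up_mv (((S.T (cR y) : ℕ) : ℤ) - ((S.T (c0 y) : ℕ) : ℤ)) (S.T (cS y)) (S.T (c0 y))
      (S.T (cT y))
    have h6 := up_sub (S.T (cR y)) (S.T (c0 y))
    unfold vB
    linarith
  rw [Ex_add, Ex_const S.hpY] at e
  linarith [hL.dS0]

theorem cst_dnB (hD : 0 ≤ D) (hL : LDB S D) :
    Ex S.pY (fun y => dn M (vB S y)) ≤ 3 * D + 2.8 := by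
  have h2 := log2_le
  have h8 := log8_le
  have e : Ex S.pY (fun y => dn M (vB S y)) ≤
      Ex S.pY (fun y => ld (S.T (cR y)) (S.T (c0 y)) + (ld (S.T (cS y)) (S.T (c0 y)) +
        (ld (S.T (cS y)) (S.T (cT y)) + (Real.log 2 + Real.log 8)))) := by
    refine Helper8.Kak.Ex_mono S.hpY fun y => ?_
    have h5 := dn_mv (((S.T (cR y) : ℕ) : ℤ) - ((S.T (c0 y) : ℕ) : ℤ)) (S.T (cS y)) (S.T (c0 y))
      (S.T (cT y))
    have h6 := dn_sub (S.T (cR y)) (S.T (c0 y))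
    unfold vB
    linarith
  rw [Ex_add, Ex_add, Ex_add, Ex_const S.hpY] at e
  linarith [hL.dS0, hL.dS1, hL.dR0]

theorem cst_upc (hD : 0 ≤ D) (hL : LDB S D) :
    Ex S.pY (fun y => up M (vc S y)) ≤ 2 * D + 3.5 := by
  have h4 := log4_le
  have e : Ex S.pY (fun y => up M (vc S y)) ≤
      Ex S.pY (fun y => up M (vB S y) + (ld (S.T (cb' y)) (S.T (cT y)) + Real.log 4)) := by
    refine Helper8.Kak.Ex_mono S.hpY fun y => ?_
    have h5 := up_mv (vB S y) (S.T (cb' y)) (S.T (cT y)) (S.T (cb y))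
    unfold vc
    linarith
  rw [Ex_add, Ex_add, Ex_const S.hpY] at e
  linarith [cst_upB S hD hL, hL.db1]

theorem cst_dnc (hD : 0 ≤ D) (hL : LDB S D) :
    Ex S.pY (fun y => dn M (vc S y)) ≤ 5 * D + 4.9 := by
  have h8 := log8_le
  have e : Ex S.pY (fun y => dn M (vc S y)) ≤
      Ex S.pY (fun y => dn M (vB S y) + (ld (S.T (cb' y)) (S.T (cT y)) +
        (ld (S.T (cb' y)) (S.T (cb y)) + Real.log 8))) := by
    refine Helper8.Kak.Ex_mono S.hpY fun y => ?_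
    have h5 := dn_mv (vB S y) (S.T (cb' y)) (S.T (cT y)) (S.T (cb y))
    unfold vc
    linarith
  rw [Ex_add, Ex_add, Ex_add, Ex_const S.hpY] at e
  linarith [cst_dnB S hD hL, hL.db1, hL.dbb]


theorem cst_cost_c1 (hD : 0 ≤ D) (hL : LDB S D) :
    HH S.pY S.V {.B, .S, .T0, .T1, .R} - HH S.pY S.V {.B, .S, .T0, .T1}
    ≤ UU m D := by
  refine cost_le S.V _ _ V1.R (by decide +kernel) _ fun r hr => ?_
  simp only [Finset.mem_insert, Finset.mem_singleton, forall_eq_or_imp, forall_eq, V_B, V_S,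
    V_T0, V_T1] at hr
  have h0 : CE S.pY (S.V V1.R) r ≤ CE S.pY
      (Setoid.ker (fun y => ((S.T (cR y) : ℕ) : ℤ) - ((S.T (c0 y) : ℕ) : ℤ))) r := by
    refine CE_mono S.hpY fun y y' _ _ g1 g2 => ?_
    rw [Setoid.ker_def] at g1
    rw [V_R]
    have g3 : ((S.T (cR y) : ℕ) : ℤ) = ((S.T (cR y') : ℕ) : ℤ) := by
      rw [(hr y y' g2).2.2.1] at g1
      linarith
    exact Fin.ext (by exact_mod_cast g3)
  have h1 := CE_unmv S.hpY r
    (fun y => ((S.T (cR y) : ℕ) : ℤ) - ((S.T (c0 y) : ℕ) : ℤ)) (fun y => S.T (cS y))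
    (fun y => S.T (c0 y)) (fun y => S.T (cT y))
    (fun y y' _ _ g => ⟨(hr y y' g).2.1, (hr y y' g).2.2.1, (hr y y' g).2.2.2, (hr y y' g).1⟩)
  have e : Ex S.pY (fun y => 2 * up M (((S.T (cR y) : ℕ) : ℤ) - ((S.T (c0 y) : ℕ) : ℤ)) +
      ld (S.T (cS y)) (S.T (c0 y)) + ld (S.T (cS y)) (S.T (cT y))) ≤
      Ex S.pY (fun y => ld (S.T (cS y)) (S.T (c0 y)) + (ld (S.T (cS y)) (S.T (cT y))
        + 2 * Real.log 2)) := by
    refine Helper8.Kak.Ex_mono S.hpY fun y => ?_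
    have h6 := up_sub (S.T (cR y)) (S.T (c0 y))
    linarith
  have e2 : Ex S.pY (fun y => ld (S.T (cS y)) (S.T (c0 y)) + (ld (S.T (cS y)) (S.T (cT y))
        + 2 * Real.log 2)) = Ex S.pY (fun y => ld (S.T (cS y)) (S.T (c0 y)))
        + (Ex S.pY (fun y => ld (S.T (cS y)) (S.T (cT y))) + 2 * Real.log 2) := by
    rw [Ex_add, Ex_add, Ex_const S.hpY]
  have h2 : CE S.pY (S.V V1.R) r ≤ 34 * (D + 1) := by
    linarith [hL.dS0, hL.dS1, log2_le, log5_le]
  exact le_kk hD h2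

theorem cst_cost_cB (hD : 0 ≤ D) (hL : LDB S D) :
    HH S.pY S.V {.K, .B} - HH S.pY S.V {.K} ≤ Real.log M + UU m D := by
  refine cost_le S.V _ _ V1.B (by decide +kernel) _ fun r _ => ?_
  have h1 := CE_param S.hpY r (vB S) (M_pos G)
  have h2 : 2 * Ex S.pY (fun ω => up M (vB S ω)) + Real.log 3 ≤ UU m D := by
    apply le_kk hD
    linarith [cst_upB S hD hL, log3_le]
  have h3 : CE S.pY (S.V V1.B) r = CE S.pY (Setoid.ker (vB S)) r := rfl
  rw [h3]
  linarith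

theorem cst_cost_c3 (hD : 0 ≤ D) (hL : LDB S D) :
    HH S.pY S.V {.l0, .T1, .w, .B, .l1} - HH S.pY S.V {.l0, .T1, .w, .B}
    ≤ UU m D := by
  refine cost_le S.V _ _ V1.l1 (by decide +kernel) _ fun r hr => ?_
  simp only [Finset.mem_insert, Finset.mem_singleton, forall_eq_or_imp, forall_eq, V_l0, V_T1,
    V_w, V_B] at hr
  have h2 := CE_clos S.hpY G.hδ G.hδ1 G.hM G.hv G.hinj r
      (fun y => S.l (c0 y)) (fun y => S.l (c1 y)) (vB S) (fun y => S.T (cT y))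
      (fun y y' _ _ g => ⟨(hr y y' g).2.2.2, by
        simp only [(hr y y' g).1, (hr y y' g).2.1], (hr y y' g).2.2.1⟩)
  refine h2.trans (mul_le_kk hD ?_)
  linarith [cst_dnB S hD hL, log7_le]

theorem cst_cost_c4 (hD : 0 ≤ D) (hL : LDB S D) :
    HH S.pY S.V {.PS, .PR, .T0, .T1, .S, .R, .B, .w}
      - HH S.pY S.V {.PS, .PR, .T0, .T1, .S, .R, .B} ≤ UU m D := by
  refine cost_le S.V _ _ V1.w (by decide +kernel) _ fun r hr => ?_
  simp only [Finset.mem_insert, Finset.mem_singleton, forall_eq_or_imp, forall_eq, V_PS, V_PR,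
    V_T0, V_T1, V_S, V_R, V_B] at hr
  have h2 := CE_move S.hpY G.hδ G.hδ1 G.hM G.hx G.hv r
    (fun y => S.l (c0 y)) (fun y => S.l (c1 y)) (fun y => S.l (c1 y))
    (fun y => ((S.T (cR y) : ℕ) : ℤ) - ((S.T (c0 y) : ℕ) : ℤ)) (fun y => S.T (cS y))
    (fun y => S.T (c0 y)) (fun y => S.T (cT y)) (fun y hy => (S.lk hy hy).p0.symm)
    (fun y y' _ _ g => by
      obtain ⟨g1, g2, g3, g4, g5, g6, g7⟩ := hr y y' g
      refine ⟨g5, g3, g4, by rw [g6, g3], g1, ?_⟩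
      have e : ∀ y : Y S.Ω, frm G.x G.v (S.l (c1 y)) (S.T (c0 y))
          (((S.T (cR y) : ℕ) : ℤ) - ((S.T (c0 y) : ℕ) : ℤ)) (G.v (S.l (c1 y)))
          = pnt G.x G.v (S.l (c1 y)) (S.T (cR y)) := by
        intro y
        funext i
        unfold frm pnt ht
        push_cast
        ring
      rw [e, e]
      exact g2)
  refine h2.trans (mul_le_kk hD ?_)
  linarith [hL.dS0, log11_le]

theorem cst_cost_cc (hD : 0 ≤ D) (hL : LDB S D) :
    HH S.pY S.V {.K, .c} - HH S.pY S.V {.K} ≤ Real.log M + UU m D := by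
  refine cost_le S.V _ _ V1.c (by decide +kernel) _ fun r _ => ?_
  have h1 := CE_param S.hpY r (vc S) (M_pos G)
  have h2 : 2 * Ex S.pY (fun ω => up M (vc S ω)) + Real.log 3 ≤ UU m D := by
    apply le_kk hD
    linarith [cst_upc S hD hL, log3_le]
  have h3 : CE S.pY (S.V V1.c) r = CE S.pY (Setoid.ker (vc S)) r := rfl
  rw [h3]
  linarith

theorem cst_cost_cU (hD : 0 ≤ D) (hL : LDB S D) :
    HH S.pY S.V {.b', .b, .T1, .c, .B} - HH S.pY S.V {.b', .b, .T1, .c}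
    ≤ UU m D := by
  refine cost_le S.V _ _ V1.B (by decide +kernel) _ fun r hr => ?_
  simp only [Finset.mem_insert, Finset.mem_singleton, forall_eq_or_imp, forall_eq, V_b', V_b,
    V_T1, V_c] at hr
  have h2 := CE_unmv S.hpY r (vB S)
      (fun y => S.T (cb' y)) (fun y => S.T (cT y)) (fun y => S.T (cb y))
      (fun y y' _ _ g => ⟨(hr y y' g).1, (hr y y' g).2.2.1, (hr y y' g).2.1, (hr y y' g).2.2.2⟩)
  rw [Ex_add, Ex_add, Ex_smul] at h2
  refine h2.trans (le_kk hD ?_)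
  linarith [cst_upB S hD hL, hL.db1, hL.dbb, log5_le]

theorem cst_cost_c7 (hD : 0 ≤ D) (hL : LDB S D) :
    HH S.pY S.V {.z, .Pb, .b, .c, .l1} - HH S.pY S.V {.z, .Pb, .b, .c}
    ≤ UU m D := by
  refine cost_le S.V _ _ V1.l1 (by decide +kernel) _ fun r hr => ?_
  simp only [Finset.mem_insert, Finset.mem_singleton, forall_eq_or_imp, forall_eq, V_z, V_Pb,
    V_b, V_c] at hr
  have h2 := CE_clos S.hpY G.hδ G.hδ1 G.hM G.hv G.hinj r
      (fun y => S.l (c2 y)) (fun y => S.l (c1 y)) (vc S) (fun y => S.T (cb y))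
      (fun y y' _ _ g => ⟨(hr y y' g).2.2.2, (hr y y' g).2.1, (hr y y' g).1⟩)
  refine h2.trans (mul_le_kk hD ?_)
  linarith [cst_dnc S hD hL, log7_le]

theorem cst_cost_c8 (hD : 0 ≤ D) (hL : LDB S D) :
    HH S.pY S.V {.l1, .l2, .T0, .T1, .l0} - HH S.pY S.V {.l1, .l2, .T0, .T1}
    ≤ UU m D := by
  refine cost_le S.V _ _ V1.l0 (by decide +kernel) _ fun r hr => ?_
  simp only [Finset.mem_insert, Finset.mem_singleton, forall_eq_or_imp, forall_eq, V_l1, V_l2,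
    V_T0, V_T1] at hr
  have h4 := CE_join S.hpY G.hδ G.hδ1 G.hM G.hv G.hinj r
    (fun y => S.l (c0 y)) (fun y => S.l (c2 y)) (fun y => S.l (c1 y)) (fun y => S.T (cT y))
    (fun y => S.T (c0 y)) (fun y hy => (S.lk hy hy).p1.symm) (fun y hy => (S.lk hy hy).p0.symm)
    (fun y y' _ _ g => ⟨(hr y y' g).2.1, (hr y y' g).1, (hr y y' g).2.2.2, (hr y y' g).2.2.1⟩)
  refine h4.trans (mul_le_kk hD ?_)
  linarith [hL.d10, log7_le]

theorem cst_cost_c10 (hD : 0 ≤ D) (hL : LDB S D) :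
    HH S.pY S.V {.Pb', .w, .b', .T1, .b, .B, .c, .z}
      - HH S.pY S.V {.Pb', .w, .b', .T1, .b, .B, .c} ≤ UU m D := by
  refine cost_le S.V _ _ V1.z (by decide +kernel) _ fun r hr => ?_
  simp only [Finset.mem_insert, Finset.mem_singleton, forall_eq_or_imp, forall_eq, V_Pb', V_w,
    V_b', V_T1, V_b, V_B, V_c] at hr
  have h3 := CE_move S.hpY G.hδ G.hδ1 G.hM G.hx G.hv r
    (fun y => S.l (c2 y)) (fun y => S.l (c0 y)) (fun y => S.l (c1 y))
    (vB S) (fun y => S.T (cb' y)) (fun y => S.T (cT y)) (fun y => S.T (cb y))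
    (fun y hy => (S.lk hy hy).p1)
    (fun y y' _ _ g => by
      obtain ⟨g1, g2, g3, g4, g5, g6, g7⟩ := hr y y' g
      exact ⟨g3, g4, g5, g6, g1, g2⟩)
  refine h3.trans (mul_le_kk hD ?_)
  linarith [hL.db1, log11_le]

theorem st_CST : ST_CST := by
  intro m M G S D hD hL
  exact
    { toBase := S.base
      c1 := cst_cost_c1 S hD hL
      cB := cst_cost_cB S hD hL
      c3 := cst_cost_c3 S hD hL
      c4 := cst_cost_c4 S hD hL
      cc := cst_cost_cc S hD hL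
      cU := cst_cost_cU S hD hL
      c7 := cst_cost_c7 S hD hL
      c8 := cst_cost_c8 S hD hL
      c10 := cst_cost_c10 S hD hL }

end

end Pool.Agent.Helper75.KM
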